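import Pool.Agent.KACR.Stmts

/-!
# KACR, row TAN: a smooth unit speed curve is an `Arc` for its signed curvature
-/

noncomputable section

namespace Pool.Agent.KACR.H9

theorem tan : TanStmt := by
  intro g hg hunit
  have hgd : Differentiable ℝ g := hg.differentiable (by simp)
  have hg1 : ContDiff ℝ ((⊤ : ℕ∞) : WithTop ℕ∞) (deriv g) :=
    (contDiff_infty_iff_deriv.1 hg).2
  have hhd : Differentiable ℝ (deriv g) := hg1.differentiable (by simp)
  have hg2 : ContDiff ℝ ((⊤ : ℕ∞) : WithTop ℕ∞) (deriv (deriv g)) :=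
    (contDiff_infty_iff_deriv.1 hg1).2
  obtain ⟨h, hh⟩ : ∃ h : ℝ → ℂ, h = deriv g := ⟨_, rfl⟩
  obtain ⟨h', hh'⟩ : ∃ h' : ℝ → ℂ, h' = deriv h := ⟨_, rfl⟩
  obtain ⟨k, hk⟩ : ∃ k : ℝ → ℝ, k = fun s => ((starRingEnd ℂ) (h s) * h' s).im := ⟨_, rfl⟩
  have hkk : (fun s => ((starRingEnd ℂ) (deriv g s) * deriv (deriv g) s).im) = k := by
    rw [hk, hh', hh]
  rw [hkk]
  have hder : ∀ s, HasDerivAt h (h' s) s := by
    intro s
    rw [hh', hh]
    exact (hhd s).hasDerivAt
  have hgder : ∀ s, HasDerivAt g (h s) s := by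
    intro s
    rw [hh]
    exact (hgd s).hasDerivAt
  have hnorm : ∀ s, h s * (starRingEnd ℂ) (h s) = 1 := by
    intro s
    rw [Complex.mul_conj, Complex.normSq_eq_norm_sq, hh, hunit s]
    simp
  have hcd : ∀ s, HasDerivAt (fun t => (starRingEnd ℂ) (h t)) ((starRingEnd ℂ) (h' s)) s := by
    intro s
    have h1 := (Complex.conjCLE.toContinuousLinearMap.hasFDerivAt (x := h s)).comp_hasDerivAt s
      (hder s)
    exact h1
  have hre : ∀ s, ((starRingEnd ℂ) (h s) * h' s).re = 0 := by
    intro s
    have h1 := (hder s).mul (hcd s)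
    have h2 : (fun t => h t * (starRingEnd ℂ) (h t)) = fun _ => (1 : ℂ) := funext hnorm
    have h3 : HasDerivAt (fun t => h t * (starRingEnd ℂ) (h t))
      (h' s * (starRingEnd ℂ) (h s) + h s * (starRingEnd ℂ) (h' s)) s := h1
    rw [h2] at h3
    have h4 := h3.unique (hasDerivAt_const s (1 : ℂ))
    have h5 := congrArg Complex.re h4
    simp only [Complex.add_re, Complex.mul_re, Complex.conj_re, Complex.conj_im,
      Complex.zero_re] at h5
    simp only [Complex.mul_re, Complex.conj_re, Complex.conj_im]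
    linarith
  have hkI : ∀ s, (starRingEnd ℂ) (h s) * h' s = (k s : ℂ) * Complex.I := by
    intro s
    apply Complex.ext
    · rw [hre]
      simp
    · rw [hk]
      simp
  have hode : ∀ s, h' s = (k s : ℂ) * Complex.I * h s := by
    intro s
    rw [← hkI s]
    linear_combination (-(h' s)) * hnorm s
  have hkc : Continuous k := by
    have c1 : Continuous h := by
      rw [hh]
      exact hg1.continuous
    have c2 : Continuous h' := by
      rw [hh', hh]
      exact hg2.continuous
    rw [hk]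
    exact Complex.continuous_im.comp ((Complex.continuous_conj.comp c1).mul c2)
  let a : ℝ → ℝ := fun s => Complex.arg (h 0) + ∫ t in (0 : ℝ)..s, k t
  have ha : ∀ s, HasDerivAt a (k s) s := fun s =>
    ((hkc.integral_hasStrictDerivAt 0 s).hasDerivAt).const_add _
  refine ⟨a, ha, fun s => ?_⟩
  have hE : ∀ s, HasDerivAt (fun t => Complex.exp (-(a t : ℂ) * Complex.I))
      (Complex.exp (-(a s : ℂ) * Complex.I) * (-(k s : ℂ) * Complex.I)) s := by
    intro s
    have h1 : HasDerivAt (fun t => (a t : ℂ)) (k s : ℂ) s := (ha s).ofReal_comp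
    exact ((h1.neg.mul_const Complex.I).cexp)
  have hF : ∀ s, HasDerivAt (fun t => h t * Complex.exp (-(a t : ℂ) * Complex.I)) 0 s := by
    intro s
    have h1 := (hder s).mul (hE s)
    have h2 : h' s * Complex.exp (-(a s : ℂ) * Complex.I) +
        h s * (Complex.exp (-(a s : ℂ) * Complex.I) * (-(k s : ℂ) * Complex.I)) = 0 := by
      rw [hode s]
      ring
    rw [← h2]
    exact h1
  have hconst := is_const_of_deriv_eq_zero (fun s => (hF s).differentiableAt)
    (fun s => (hF s).deriv)
  have h0 : h s * Complex.exp (-(a s : ℂ) * Complex.I) = 1 := by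
    have h1 := hconst s 0
    rw [h1]
    have h2 : a 0 = Complex.arg (h 0) := by simp [a]
    have h3 : Complex.exp (Complex.arg (h 0) * Complex.I) = h 0 := by
      have h4 := Complex.norm_mul_exp_arg_mul_I (h 0)
      have h5 : ‖h 0‖ = 1 := by rw [hh]; exact hunit 0
      rw [h5] at h4
      simpa using h4
    rw [h2]
    nth_rewrite 1 [← h3]
    rw [← Complex.exp_add]
    simp
  have h1 : h s = Complex.exp ((a s : ℂ) * Complex.I) := by
    have h2 : Complex.exp (-(a s : ℂ) * Complex.I) * Complex.exp ((a s : ℂ) * Complex.I) = 1 := by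
      rw [← Complex.exp_add]
      simp
    calc h s = h s * (Complex.exp (-(a s : ℂ) * Complex.I) *
          Complex.exp ((a s : ℂ) * Complex.I)) := by rw [h2, mul_one]
      _ = Complex.exp ((a s : ℂ) * Complex.I) := by rw [← mul_assoc, h0, one_mul]
  rw [← h1]
  exact hgder s

end Pool.Agent.KACR.H9
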